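import Pool.Agent.H58.TruncXi

namespace Pool.Agent.Results.MP_d99112_an.Exists
open Complex Filter

/-- The kernel; the summation index `n ≥ 1` of the problem is `k + 1`. -/
noncomputable def Phi (t : ℝ) : ℝ := 2 * ∑' k : ℕ,
  (2 * Real.pi ^ 2 * ((k : ℝ) + 1) ^ 4 * Real.exp (9 * t / 2) -
    3 * Real.pi * ((k : ℝ) + 1) ^ 2 * Real.exp (5 * t / 2)) *
      Real.exp (-Real.pi * ((k : ℝ) + 1) ^ 2 * Real.exp (2 * t))

/-- The truncated cosine transform. -/
noncomputable def F (R : ℝ) (z : ℂ) : ℂ := ∫ x in (0 : ℝ)..R, (Phi x : ℂ) * cos (z * x)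

lemma scale {R : ℝ} (hR : 0 ≤ R) (z : ℂ) :
    F R z = 4 * H58.TruncXi.H H58.TruncXi.phi (R / 2) (2 * z) := by
  have := intervalIntegral.integral_comp_div (a := 0) (b := R) (c := 2)
    (fun t : ℝ => (H58.TruncXi.phi t : ℂ) * cos (2 * z * t)) two_ne_zero
  rw [zero_div] at this
  unfold F H58.TruncXi.H
  rw [show (4 : ℂ) = 2 * (2 : ℝ) by norm_num, mul_assoc, ← real_smul, ← this,
    ← intervalIntegral.integral_const_mul]
  refine intervalIntegral.integral_congr fun t ht => ?_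
  rw [Set.uIcc_of_le hR] at ht
  have t0 : 0 ≤ t / 2 := by linarith [ht.1]
  simp only [H58.TruncXi.phi, H58.TruncXi.term, max_eq_left t0, Phi, ← mul_div_assoc,
    show 4 * t / 2 = 2 * t by ring]
  push_cast
  rw [show 2 * z * (t / 2) = z * t by ring, mul_assoc]

lemma even (R : ℝ) (z : ℂ) : F R (-z) = F R z := by simp [F]

lemma cj (R : ℝ) (z : ℂ) : F R ((starRingEnd ℂ) z) = (starRingEnd ℂ) (F R z) := by
  simp only [F, intervalIntegral, map_sub, ← integral_conj, map_mul, conj_ofReal, ← cos_conj]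

theorem result : ∃ R₀ : ℝ, 0 < R₀ ∧ ∀ R : ℝ, R₀ ≤ R → ∃ S : Finset ℂ, S.card = 4 ∧
    ∀ z ∈ S, F R z = 0 ∧ z.im ≠ 0 := by
  obtain ⟨R₀, h⟩ := eventually_atTop.1 (H58.TruncXi.phi_zero one_pos)
  refine ⟨max (2 * R₀) 1, lt_max_of_lt_right one_pos, fun R hR => ?_⟩
  have R0 : 0 < R := one_pos.trans_le ((le_max_right _ _).trans hR)
  obtain ⟨w, h1, h2⟩ := h (R / 2) (by linarith [(le_max_left _ _).trans hR])
  have i0 : w.im ≠ 0 := fun h => by
    have h3 := (abs_im_le_norm _).trans_lt h2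
    have A0 := Real.exp_pos (4 * (R / 2))
    generalize Real.exp (4 * (R / 2)) = A at h3 A0
    simp only [sub_im, h] at h3
    simp [abs_of_pos A0, abs_of_pos Real.pi_pos] at h3
    nlinarith [Real.pi_gt_three]
  have r0 : w.re ≠ 0 := fun h => H58.TruncXi.phi_im (half_pos R0) w.im (by
    rw [← h1]; congr 1; apply Complex.ext <;> simp [h])
  obtain ⟨z, rfl⟩ : ∃ z, w = 2 * z := ⟨w / 2, by ring⟩
  have z0 : F R z = 0 := by rw [scale R0.le, h1, mul_zero]
  have i1 : z.im ≠ 0 := by simpa using i0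
  have r1 : z.re ≠ 0 := by simpa using r0
  have z1 : F R ((starRingEnd ℂ) z) = 0 := by rw [cj, z0, map_zero]
  refine ⟨{z, -z, (starRingEnd ℂ) z, -(starRingEnd ℂ) z}, ?_, ?_⟩
  · rw [Finset.card_eq_four]
    refine ⟨_, _, _, _, ?_, ?_, ?_, ?_, ?_, ?_, rfl⟩ <;> intro h <;>
      have a := congrArg re h <;> have b := congrArg im h <;>
      simp only [neg_re, neg_im, conj_re, conj_im] at a b <;>
      first | exact i1 (by linarith) | exact r1 (by linarith)
  · simp [even, z0, z1, i1]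

end Pool.Agent.Results.MP_d99112_an.Exists
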